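import Pool.Agent.W8.LS.Stm

/-!
Project LS: the sphere map is a Lagrangian immersion.
-/

open scoped Topology ContDiff
open Complex (I)
open Pool.Agent.W8.LS

namespace Pool.Agent.W60.LS

noncomputable section

/-- both formulas of the sphere map at once -/
theorem lagPt_formula (hLF : LamFacts) (hShift : LamShift) (G : ℂ → ℂ) (hG : GProp G)
    (hL : ∀ (k l m r : ℤ) (N : ℕ) (s : ℝ) (z : ℂ), |z.re| < 1 / 2 →
      LagPt (fun p : ℝ × ℂ => lam k l m r N p.1 p.2)
        (s, Complex.cosh (2 * (Real.pi : ℂ) * z)) {0})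
    (L1 L2 : ℂ × ℂ →L[ℝ] ℂ) (hinj : ∀ q, L1 q = 0 → L2 q = 0 → q = 0)
    (k l m r : ℤ) (N : ℕ) (p : ℂ × ℂ) (ha : L1 p ≠ 0) (hle : ‖L2 p‖ ≤ ‖L1 p‖) :
    LagPt (fun q : ℂ × ℂ => lam k l m r N (Complex.arg (L1 q) / (2 * Real.pi))
      (G (kap * (L2 q / L1 q)))) p {q | ∃ t : ℝ, q = t • p} := by
  obtain ⟨hGs, hGi, hGd, hGJ, hGr, hGr'⟩ := hG
  have hpi : (2 * Real.pi : ℝ) ≠ 0 := by positivity
  have hkap : 0 < kap := Real.exp_pos _
  set a := L1 p with hadef
  set b := L2 p with hbdef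
  set ζ0 : ℂ := kap * (b / a) with hζ0
  set s0 : ℝ := Complex.arg a / (2 * Real.pi) with hs0
  have hζn : ‖ζ0‖ ≤ kap := by
    rw [hζ0, norm_mul, norm_div, Complex.norm_real, Real.norm_of_nonneg hkap.le]
    have : ‖b‖ / ‖a‖ ≤ 1 := div_le_one_of_le₀ hle (norm_nonneg _)
    nlinarith
  obtain ⟨z, hz⟩ := hLF.2.2.1.1 (G ζ0)
  have hzre : |z.re| < 1 / 2 := lt_of_le_of_lt (hGr ζ0 z hζn hz) (by norm_num)
  obtain ⟨i, σ, hσd, hσs, hσe, hσi, hσk⟩ := hL k l m r N s0 z hzre
  rw [hz] at hσd hσs hσe hσi hσk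
  -- the inner map
  let ψ : ℂ × ℂ → ℝ × ℂ := fun q =>
    (s0 + (Complex.log (L1 q / a)).im / (2 * Real.pi), G (kap * (L2 q / L1 q)))
  have hψp : ψ p = (s0, G ζ0) := by
    simp only [ψ]
    rw [← hadef, ← hbdef, div_self ha, Complex.log_one, ← hζ0]
    simp
  have hL1c : ContDiff ℝ ∞ (fun q => L1 q) := L1.contDiff
  have hL2c : ContDiff ℝ ∞ (fun q => L2 q) := L2.contDiff
  have hU : ∀ᶠ q in 𝓝 p, L1 q ≠ 0 ∧ L1 q / a ∈ Complex.slitPlane := by
    have h1 : ∀ᶠ q in 𝓝 p, L1 q ≠ 0 := by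
      have : ContinuousAt (fun q => L1 q) p := L1.continuous.continuousAt
      exact this.eventually_ne ha
    have h2 : ∀ᶠ q in 𝓝 p, L1 q / a ∈ Complex.slitPlane := by
      have hc : ContinuousAt (fun q => L1 q / a) p :=
        (L1.continuous.continuousAt).div_const a
      have hmem : L1 p / a ∈ Complex.slitPlane := by
        rw [← hadef, div_self ha]
        exact Complex.one_mem_slitPlane
      exact hc.eventually (Complex.isOpen_slitPlane.mem_nhds hmem)
    exact h1.and h2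
  have hψs : ∀ᶠ q in 𝓝 p, ContDiffAt ℝ ∞ ψ q := by
    filter_upwards [hU] with q hq
    have hq1 : ContDiffAt ℝ ∞ (fun q => Complex.log (L1 q / a)) q := by
      have hlog : ContDiffAt ℝ ∞ Complex.log (L1 q / a) :=
        (Complex.contDiffAt_log hq.2).restrict_scalars ℝ
      exact hlog.comp q ((hL1c.contDiffAt).div_const a)
    have hq2 : ContDiffAt ℝ ∞ (fun q => (Complex.log (L1 q / a)).im) q :=
      (Complex.imCLM.contDiff.contDiffAt).comp q hq1
    have hq3 : ContDiffAt ℝ ∞ (fun q => L2 q / L1 q) q := by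
      simp only [div_eq_mul_inv]
      exact hL2c.contDiffAt.mul (hL1c.contDiffAt.inv hq.1)
    have hq4 : ContDiffAt ℝ ∞ (fun q => G (kap * (L2 q / L1 q))) q :=
      (hGs.contDiffAt).comp q (contDiffAt_const.mul hq3)
    exact (contDiffAt_const.add (hq2.div_const _)).prodMk hq4
  have hψsp : ContDiffAt ℝ ∞ ψ p := hψs.self_of_nhds
  have hψc : Filter.Tendsto ψ (𝓝 p) (𝓝 (s0, G ζ0)) := by
    rw [← hψp]
    exact hψsp.continuousAt
  have hψd : DifferentiableAt ℝ ψ p := hψsp.differentiableAt (by simp)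
  have hσsp : ContDiffAt ℝ ∞ σ (ψ p) := by
    rw [hψp]
    exact hσs.self_of_nhds
  have hσdiff : DifferentiableAt ℝ σ (ψ p) := hσsp.differentiableAt (by simp)
  have hcomp : fderiv ℝ (σ ∘ ψ) p = (fderiv ℝ σ (ψ p)).comp (fderiv ℝ ψ p) :=
    fderiv_comp p hσdiff hψd
  refine ⟨i, σ ∘ ψ, ?_, ?_, ?_, ?_, ?_⟩
  · simp only [Function.comp, hψp]
    exact hσd
  · filter_upwards [hψs, hψc.eventually hσs] with q hq1 hq2
    exact hq2.comp q hq1
  · filter_upwards [hU, hψc.eventually hσe] with q hq1 hq2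
    have hq3 : lam k l m r N (ψ q).1 (ψ q).2 = ch i (σ (ψ q)) := hq2
    simp only [Function.comp]
    rw [← hq3]
    -- the two first arguments differ by an integer
    have hne : L1 q / a ≠ 0 := div_ne_zero hq1.1 ha
    have hang : ((Complex.arg (L1 q) : ℝ) : Real.Angle) =
        ((Complex.arg a + Complex.arg (L1 q / a) : ℝ) : Real.Angle) := by
      have := Complex.arg_mul_coe_angle ha hne
      rw [mul_div_cancel₀ _ ha] at this
      rw [this]
      rfl
    obtain ⟨n, hn⟩ := Real.Angle.angle_eq_iff_two_pi_dvd_sub.1 hang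
    have hfin : Complex.arg (L1 q) / (2 * Real.pi) =
        (s0 + (Complex.log (L1 q / a)).im / (2 * Real.pi)) + n := by
      rw [Complex.log_im, hs0]
      field_simp
      linarith
    simp only [ψ]
    rw [hfin]
    exact hShift hLF k l m r N _ _ n
  · intro u v
    rw [hcomp, hψp]
    exact hσi _ _
  · intro q hq
    rw [hcomp, hψp] at hq
    have hq0 : fderiv ℝ ψ p q = 0 := by
      have := hσk _ hq
      simpa using this
    -- derivative along the line
    have hline : HasDerivAt (fun t : ℝ => p + t • q) q 0 := by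
      have := ((hasDerivAt_id (0 : ℝ)).smul_const q).const_add p
      simpa using this
    have hd1 : HasDerivAt (fun t : ℝ => ψ (p + t • q)) (fderiv ℝ ψ p q) 0 := by
      have hf : HasFDerivAt ψ (fderiv ℝ ψ p) (p + (0 : ℝ) • q) := by
        simpa using hψd.hasFDerivAt
      exact hf.comp_hasDerivAt (0 : ℝ) hline
    have hL1d : HasDerivAt (fun t : ℝ => L1 (p + t • q)) (L1 q) 0 := by
      have := (L1.hasFDerivAt (x := p + (0 : ℝ) • q)).comp_hasDerivAt (0 : ℝ) hline
      exact this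
    have hL2d : HasDerivAt (fun t : ℝ => L2 (p + t • q)) (L2 q) 0 := by
      have := (L2.hasFDerivAt (x := p + (0 : ℝ) • q)).comp_hasDerivAt (0 : ℝ) hline
      exact this
    have e1 : L1 (p + (0 : ℝ) • q) = a := by simp [hadef]
    have e2 : L2 (p + (0 : ℝ) • q) = b := by simp [hbdef]
    have hlogd : HasDerivAt (fun t : ℝ => Complex.log (L1 (p + t • q) / a)) (L1 q / a) 0 := by
      have h := (hL1d.div_const a).clog_real (by
        rw [e1, div_self ha]
        exact Complex.one_mem_slitPlane)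
      rw [e1, div_self ha, div_one] at h
      exact h
    have himd : HasDerivAt (fun t : ℝ => s0 + (Complex.log (L1 (p + t • q) / a)).im /
        (2 * Real.pi)) ((L1 q / a).im / (2 * Real.pi)) 0 := by
      have h := (Complex.imCLM.hasFDerivAt
        (x := Complex.log (L1 (p + (0 : ℝ) • q) / a))).comp_hasDerivAt (0 : ℝ) hlogd
      exact (h.div_const _).const_add s0
    have hquo : HasDerivAt (fun t : ℝ => L2 (p + t • q) / L1 (p + t • q))
        ((L2 q * a - b * L1 q) / a ^ 2) 0 := by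
      have h := hL2d.div hL1d (by rw [e1]; exact ha)
      rw [e1, e2] at h
      exact h
    have hGd1 : HasDerivAt (fun t : ℝ => G (kap * (L2 (p + t • q) / L1 (p + t • q))))
        (fderiv ℝ G ζ0 (kap * ((L2 q * a - b * L1 q) / a ^ 2))) 0 := by
      have hGf : HasFDerivAt G (fderiv ℝ G ζ0)
          (kap * (L2 (p + (0 : ℝ) • q) / L1 (p + (0 : ℝ) • q))) := by
        rw [e1, e2, ← hζ0]
        exact (hGs.contDiffAt.differentiableAt (by simp)).hasFDerivAt
      exact hGf.comp_hasDerivAt (0 : ℝ) (hquo.const_mul (kap : ℂ))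
    have hd2 := himd.prodMk hGd1
    have huniq := hd1.unique hd2
    rw [hq0] at huniq
    have h1 : (L1 q / a).im = 0 := by
      have := congrArg Prod.fst huniq
      simp only [Prod.fst_zero] at this
      have h' := this.symm
      rcases div_eq_zero_iff.1 h' with h | h
      · exact h
      · exact absurd h hpi
    have h2 : L2 q * a = b * L1 q := by
      have := congrArg Prod.snd huniq
      simp only [Prod.snd_zero] at this
      have h' := hGd _ _ this.symm
      have hk0 : (kap : ℂ) ≠ 0 := by exact_mod_cast hkap.ne'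
      rcases mul_eq_zero.1 h' with h | h
      · exact absurd h hk0
      · rcases div_eq_zero_iff.1 h with h | h
        · exact sub_eq_zero.1 h
        · exact absurd h (pow_ne_zero 2 ha)
    set ρ : ℝ := (L1 q / a).re with hρ
    have hρ' : L1 q / a = (ρ : ℂ) := by
      apply Complex.ext
      · simp [hρ]
      · simp [h1]
    have h3 : L1 q = ρ * a := by
      rw [← hρ', div_mul_cancel₀ _ ha]
    have h4 : L2 q = ρ * b := by
      have : L2 q * a = (ρ * b) * a := by
        rw [h2, h3]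
        ring
      exact mul_right_cancel₀ ha this
    refine ⟨ρ, ?_⟩
    have h5 : q - ρ • p = 0 := by
      apply hinj
      · rw [map_sub, map_smul, ← hadef, h3]
        simp
      · rw [map_sub, map_smul, ← hbdef, h4]
        simp
    exact sub_eq_zero.1 h5

theorem lagPt_congr {E : Type} [NormedAddCommGroup E] [NormedSpace ℝ E] {F F' : E → M} {x : E}
    {K : Set E} (h : LagPt F x K) (he : ∀ᶠ y in 𝓝 x, F' y = F y) : LagPt F' x K := by
  obtain ⟨i, σ, h1, h2, h3, h4, h5⟩ := h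
  refine ⟨i, σ, h1, h2, ?_, h4, h5⟩
  filter_upwards [he, h3] with y hy1 hy2
  rw [hy1, hy2]

theorem PhiImm_proof : PhiImm := by
  intro hLF hKap hShift hNeck G hG hL N p hp
  have hkap : 0 < kap := Real.exp_pos _
  have F1 : ∀ p : ℂ × ℂ, p.1 ≠ 0 → ‖p.2‖ ≤ ‖p.1‖ →
      LagPt (fun q : ℂ × ℂ => lam 0 0 0 0 N (Complex.arg q.1 / (2 * Real.pi))
        (G (kap * (q.2 / q.1)))) p {q | ∃ t : ℝ, q = t • p} := by
    intro p h1 h2
    exact lagPt_formula hLF hShift G hG hL (ContinuousLinearMap.fst ℝ ℂ ℂ)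
      (ContinuousLinearMap.snd ℝ ℂ ℂ) (fun q hq1 hq2 => Prod.ext hq1 hq2) 0 0 0 0 N p h1 h2
  have F2 : ∀ p : ℂ × ℂ, p.2 ≠ 0 → ‖p.1‖ ≤ ‖p.2‖ →
      LagPt (fun q : ℂ × ℂ => lam (-1) 0 (-(N : ℤ)) 0 N (Complex.arg q.2 / (2 * Real.pi))
        (G (kap * (q.1 / q.2)))) p {q | ∃ t : ℝ, q = t • p} := by
    intro p h1 h2
    exact lagPt_formula hLF hShift G hG hL (ContinuousLinearMap.snd ℝ ℂ ℂ)
      (ContinuousLinearMap.fst ℝ ℂ ℂ) (fun q hq1 hq2 => Prod.ext hq2 hq1) (-1) 0 (-(N : ℤ)) 0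
      N p h1 h2
  have c1 : Continuous (fun q : ℂ × ℂ => ‖q.1‖) := continuous_fst.norm
  have c2 : Continuous (fun q : ℂ × ℂ => ‖q.2‖) := continuous_snd.norm
  rcases lt_trichotomy ‖p.2‖ ‖p.1‖ with hlt | heq | hgt
  · have h0 : p.1 ≠ 0 := by
      intro h
      rw [h, norm_zero] at hlt
      exact absurd hlt (not_lt.2 (norm_nonneg _))
    refine lagPt_congr (F1 p h0 hlt.le) ?_
    have : ∀ᶠ q : ℂ × ℂ in 𝓝 p, ‖q.2‖ < ‖q.1‖ := (c2.tendsto p).eventually_lt (c1.tendsto p) hlt
    filter_upwards [this] with q hq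
    simp only [phi, if_pos hq.le]
  · have h1 : p.1 ≠ 0 := by
      intro h
      apply hp
      rw [h, norm_zero, norm_eq_zero] at heq
      exact Prod.ext h heq
    have h2 : p.2 ≠ 0 := by
      intro h
      apply h1
      rw [h, norm_zero] at heq
      exact norm_eq_zero.1 heq.symm
    refine lagPt_congr (F1 p h1 heq.le) ?_
    have e1 : ∀ᶠ q : ℂ × ℂ in 𝓝 p, 4 * ‖q.1‖ < kap * ‖q.2‖ := by
      refine ((continuous_const.mul c1).tendsto p).eventually_lt ((continuous_const.mul c2).tendsto p) ?_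
      have h0 : 0 < ‖p.2‖ := norm_pos_iff.2 h2
      have hK : 4 < kap := hKap
      show 4 * ‖p.1‖ < kap * ‖p.2‖
      rw [← heq]
      nlinarith
    have e2 : ∀ᶠ q : ℂ × ℂ in 𝓝 p, 4 * ‖q.2‖ < kap * ‖q.1‖ := by
      refine ((continuous_const.mul c2).tendsto p).eventually_lt ((continuous_const.mul c1).tendsto p) ?_
      have h0 : 0 < ‖p.2‖ := norm_pos_iff.2 h2
      have hK : 4 < kap := hKap
      show 4 * ‖p.2‖ < kap * ‖p.1‖
      rw [← heq]
      nlinarith
    filter_upwards [e1, e2] with q hq1 hq2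
    by_cases hc : ‖q.2‖ ≤ ‖q.1‖
    · simp only [phi, if_pos hc]
    · simp only [phi, if_neg hc]
      have hq2' : 0 < ‖q.2‖ := lt_of_le_of_lt (norm_nonneg _) (not_le.1 hc)
      have hq1' : 0 < ‖q.1‖ := by
        by_contra hcon
        have h0 : ‖q.1‖ = 0 := le_antisymm (not_lt.1 hcon) (norm_nonneg _)
        rw [h0, mul_zero] at hq2
        linarith
      symm
      refine hNeck hLF G hG N q.1 q.2 (norm_pos_iff.1 hq1') (norm_pos_iff.1 hq2') ?_ ?_
      · rw [norm_div, ← mul_div_assoc, le_div_iff₀ hq1']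
        exact hq1.le
      · rw [norm_div, ← mul_div_assoc, le_div_iff₀ hq2']
        exact hq2.le
  · have h0 : p.2 ≠ 0 := by
      intro h
      rw [h, norm_zero] at hgt
      exact absurd hgt (not_lt.2 (norm_nonneg _))
    refine lagPt_congr (F2 p h0 hgt.le) ?_
    have : ∀ᶠ q : ℂ × ℂ in 𝓝 p, ‖q.1‖ < ‖q.2‖ := (c1.tendsto p).eventually_lt (c2.tendsto p) hgt
    filter_upwards [this] with q hq
    simp only [phi, if_neg (not_le.2 hq)]

end

end Pool.Agent.W60.LS
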